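import Pool.Agent.helper13.UN.SpecG

/-!
# Row unh:GEN: the point of the Gauss sum generates the dual
-/

set_option autoImplicit false

open NumberField Complex

namespace Pool.Agent.UN

theorem GEN (hDUA : DUA_stmt) : GEN_stmt := by
  intro K _ _ b b' f β ν x₀ hb hb' hf _ _ hβ hspan hν hν1 hx hx1
  have hβK : ((β : 𝓞 K) : K) ≠ 0 := by
    intro h
    exact hβ (RingOfIntegers.coe_eq_zero_iff.1 h)
  have hm : ∀ x y : 𝓞 K, ((x * y : 𝓞 K) : K) = ((x : 𝓞 K) : K) * ((y : 𝓞 K) : K) :=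
    fun x y => map_mul (algebraMap (𝓞 K) K) x y
  have hs : ∀ x : 𝓞 K, ((1 - x : 𝓞 K) : K) = 1 - ((x : 𝓞 K) : K) := by
    intro x
    have := map_sub (algebraMap (𝓞 K) K) 1 x
    rw [map_one] at this
    exact this
  have hC : b * f * b' ≠ ⊥ := by
    have h1 : b * f ≠ 0 := mul_ne_zero hb hf
    exact mul_ne_zero h1 hb'
  have hspan' : Ideal.span {β} = ⊤ * (b * f * b') * differentIdeal ℤ (𝓞 K) := by
    rw [hspan, Ideal.top_mul]
  have hD := hDUA K ⊤ (b * f * b') β (top_ne_bot) hC hβ hspan'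
  have hmem : ∀ z y : 𝓞 K, z ∈ f → y ∈ b' → ν * z * y ∈ b * f * b' := by
    intro z y hz hy
    exact Ideal.mul_mem_mul (Ideal.mul_mem_mul hν hz) hy
  refine ⟨?_, ?_, ?_⟩
  · intro z hz
    have h1 : ((ν * x₀ : 𝓞 K) : K) / ((β : 𝓞 K) : K) * ((z : 𝓞 K) : K) ∈ Du (⊤ : Ideal (𝓞 K)) := by
      rw [hD]
      refine ⟨ν * z * x₀, hmem z x₀ hz hx, ?_⟩
      rw [hm, hm, hm]
      field_simp
    obtain ⟨k, hk⟩ := h1 1 (Submodule.mem_top)
    refine ⟨k, ?_⟩
    rw [← hk]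
    simp
  · intro t ht
    rw [hD] at ht
    obtain ⟨x, hxC, hxe⟩ := ht
    have h2 : ((x : 𝓞 K) : K) = ((ν * x₀ * t : 𝓞 K) : K) := by
      rw [← hxe, hm (ν * x₀) t, hm ν x₀]
      field_simp
      try ring
    have h3 : x = ν * x₀ * t := RingOfIntegers.coe_injective h2
    have h4 : ν * x₀ * t ∈ f := by
      rw [← h3]
      have hle : b * f * b' ≤ f := (Ideal.mul_le_left).trans Ideal.mul_le_right
      exact hle hxC
    have h5 : t = ν * x₀ * t - ((ν - 1) * (x₀ * t) + (x₀ - 1) * t) := by ring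
    rw [h5]
    exact f.sub_mem h4 (f.add_mem (f.mul_mem_right _ hν1) (f.mul_mem_right _ hx1))
  · intro x' hx'
    rw [hD]
    refine ⟨ν * (1 - x₀) * x', hmem (1 - x₀) x' ?_ hx', ?_⟩
    · have : (1 : 𝓞 K) - x₀ = -(x₀ - 1) := by ring
      rw [this]
      exact f.neg_mem hx1
    · rw [hm, hm, hm, hm, hs]
      field_simp
      try ring

end Pool.Agent.UN
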